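import Pool.Agent.K3h76.NC.Frames
import Pool.Agent.K3h76.UC.Ext

set_option autoImplicit false

/-!
Convex bodies with normal cones of small dimension which lie in circular cones.
-/

namespace Pool.Agent.K3h76.NC

open scoped RealInnerProductSpace ENNReal Pointwise
open MeasureTheory Module Metric Set Pool.Agent.K3h76.SD Pool.Agent.K3h76.RB
open Pool.Agent.W396.Il

variable {E : Type*} [NormedAddCommGroup E] [InnerProductSpace ℝ E]

/-- The unit outer normals of `K` at `x` lie in a subspace of dimension at most `k` and make with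
some unit vector `c` angles with cosine at least `b`. -/
def NarrowAt (k : ℕ) (b : ℝ) (K : Set E) (x : E) : Prop :=
  ∃ (L : Submodule ℝ E) (c : E), finrank ℝ L ≤ k ∧ ‖c‖ = 1 ∧
    ∀ u : E, ‖u‖ = 1 → (∀ y ∈ K, ⟪u, y⟫ ≤ ⟪u, x⟫) → u ∈ L ∧ b ≤ ⟪c, u⟫

/-- good directions -/
lemma good {n : ℕ} {f : Fin (n + 1) → E} (hf : Orthonormal ℝ f) {b : ℝ} (hb0 : 0 < b)
    (hb1 : b < 1) {v : E} (h1 : 0 < ⟪f 0, v⟫) (h2 : √(1 - b ^ 2) * √(sq f v) < ⟪f 0, v⟫) {u : E}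
    (hu : ‖u‖ = 1) (hspan : u ∈ Submodule.span ℝ (range f)) (hub : b ≤ ⟪f 0, u⟫) :
    0 < ⟪v, u⟫ := by
  classical
  set U : E := ∑ i, ⟪f i, v⟫ • f i with hU
  have hUf : ∀ j, ⟪U, f j⟫ = ⟪f j, v⟫ := by
    intro j
    rw [hU, sum_inner, Finset.sum_eq_single j]
    · rw [inner_smul_left, real_inner_self_eq_norm_sq, hf.1 j]
      simp
    · intro i _ hij
      rw [inner_smul_left, hf.2 hij, mul_zero]
    · intro h
      exact absurd (Finset.mem_univ j) h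
  have hUU : ‖U‖ ^ 2 = sq f v := by
    rw [← real_inner_self_eq_norm_sq]
    nth_rewrite 2 [hU]
    rw [inner_sum, sq]
    refine Finset.sum_congr rfl fun i _ => ?_
    rw [inner_smul_right, hUf]
    ring
  have hort : ⟪v - U, u⟫ = 0 := by
    have : Submodule.span ℝ (range f) ≤ (innerₛₗ ℝ (v - U)).ker := by
      rw [Submodule.span_le]
      rintro _ ⟨j, rfl⟩
      show ⟪v - U, f j⟫ = 0
      rw [inner_sub_left, hUf, real_inner_comm, sub_self]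
    exact this hspan
  have huv : ⟪v, u⟫ = ⟪U, u⟫ := by
    rw [inner_sub_left] at hort
    linarith
  rw [huv]
  have hb2 : 0 < 1 - b ^ 2 := by nlinarith
  refine angle (c := f 0) (hf.1 0) hu (hb0.trans_le hub) (by rw [hUf]; exact h1) ?_
  rw [hUf, hUU]
  have hs0 : 0 ≤ sq f v := Finset.sum_nonneg fun i _ => sq_nonneg _
  have h3 : (1 - b ^ 2) * sq f v < ⟪f 0, v⟫ ^ 2 := by
    have h4 := pow_lt_pow_left₀ h2 (by positivity) (two_ne_zero)
    rwa [mul_pow, Real.sq_sqrt hb2.le, Real.sq_sqrt hs0] at h4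
  have h5 : b ^ 2 ≤ ⟪f 0, u⟫ ^ 2 := pow_le_pow_left₀ hb0.le hub 2
  have h6 : (1 - ⟪f 0, u⟫ ^ 2) * sq f v ≤ (1 - b ^ 2) * sq f v :=
    mul_le_mul_of_nonneg_right (by linarith) hs0
  nlinarith

/-- a frame adapted to a subspace and a centre -/
lemma exists_frame [FiniteDimensional ℝ E] {n d : ℕ} (hd : finrank ℝ E = d) (hnd : n + 1 ≤ d)
    {L : Submodule ℝ E} (hL : finrank ℝ L ≤ n + 1) {c : E} (hc : ‖c‖ = 1) {b : ℝ} (hb0 : 0 < b)
    {N : Set E} (hne : N.Nonempty) (hN : ∀ u ∈ N, u ∈ L ∧ b ≤ ⟪c, u⟫) :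
    ∃ f : Fin (n + 1) → E, Orthonormal ℝ f ∧
      ∀ u ∈ N, u ∈ Submodule.span ℝ (range f) ∧ b ≤ ⟪f 0, u⟫ := by
  classical
  set p : L := L.orthogonalProjectionOnto c with hp
  have hpu : ∀ u ∈ N, ⟪(p : E), u⟫ = ⟪c, u⟫ := by
    intro u hu
    have := Submodule.inner_orthogonalProjectionOnto_eq_of_mem_right (K := L)
      ⟨u, (hN u hu).1⟩ c
    rw [Submodule.coe_inner] at this
    exact this
  obtain ⟨u₀, hu₀⟩ := hne
  have hp0 : p ≠ 0 := by
    intro h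
    have := hpu u₀ hu₀
    rw [h] at this
    simp only [Submodule.coe_zero, inner_zero_left] at this
    have := (hN u₀ hu₀).2
    linarith
  have hpn : 0 < ‖p‖ := norm_pos_iff.2 hp0
  have hpn1 : ‖p‖ ≤ 1 := by
    rw [← hc]
    exact Submodule.norm_orthogonalProjectionOnto_apply_le L c
  set c' : L := (‖p‖)⁻¹ • p with hc'
  have hc'1 : ‖c'‖ = 1 := by
    rw [hc', norm_smul, norm_inv, norm_norm, inv_mul_cancel₀ hpn.ne']
  have hc'u : ∀ u ∈ N, b ≤ ⟪(c' : E), u⟫ := by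
    intro u hu
    rw [hc', Submodule.coe_smul, inner_smul_left, hpu u hu]
    simp only [conj_trivial]
    have h1 := (hN u hu).2
    have h2 : 1 ≤ (‖p‖)⁻¹ := (one_le_inv₀ hpn).2 hpn1
    nlinarith
  -- a basis of `L`
  set r := finrank ℝ L with hr
  have hr0 : 0 < r := by
    have : Nontrivial L := ⟨⟨p, 0, hp0⟩⟩
    exact Module.finrank_pos
  obtain ⟨bL, hbL⟩ : ∃ bL : OrthonormalBasis (Fin r) ℝ L, bL ⟨0, hr0⟩ = c' := by
    have hv : Orthonormal ℝ (({⟨0, hr0⟩} : Set (Fin r)).domRestrict (fun _ => c')) := by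
      refine ⟨fun _ => hc'1, ?_⟩
      rintro ⟨i, hi⟩ ⟨j, hj⟩ hij
      exact absurd (Subtype.ext ((mem_singleton_iff.1 hi).trans (mem_singleton_iff.1 hj).symm)) hij
    obtain ⟨b, hb⟩ := Orthonormal.exists_orthonormalBasis_extension_of_card_eq
      (ι := Fin r) (by rw [Fintype.card_fin]) hv
    exact ⟨b, hb _ rfl⟩
  -- a basis of `E`
  set w : Fin d → E := fun i => if h : i.1 < r then (bL ⟨i.1, h⟩ : E) else 0 with hw
  obtain ⟨B, hB⟩ : ∃ B : OrthonormalBasis (Fin d) ℝ E, ∀ i ∈ {i : Fin d | i.1 < r}, B i = w i := by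
    refine Orthonormal.exists_orthonormalBasis_extension_of_card_eq
      (ι := Fin d) (by rw [Fintype.card_fin, hd]) ?_
    have hwi : ∀ i : {i : Fin d | i.1 < r}, w i.1 = (bL ⟨i.1.1, i.2⟩ : E) := by
      intro i
      exact dif_pos i.2
    constructor
    · intro i
      show ‖w i.1‖ = 1
      rw [hwi]
      exact bL.orthonormal.1 _
    · intro i j hij
      show ⟪w i.1, w j.1⟫ = 0
      rw [hwi, hwi, ← Submodule.coe_inner]
      refine bL.orthonormal.2 fun h => hij ?_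
      have := congrArg Fin.val h
      exact Subtype.ext (Fin.ext this)
  refine ⟨fun i => B (Fin.castLE hnd i), ?_, fun u hu => ⟨?_, ?_⟩⟩
  · exact B.orthonormal.comp _ (Fin.castLE_injective hnd)
  · have huL := (hN u hu).1
    have h1 : (⟨u, huL⟩ : L) = ∑ i, ⟪bL i, ⟨u, huL⟩⟫ • bL i := (bL.sum_repr' _).symm
    have h2 : u = ∑ i, ⟪bL i, ⟨u, huL⟩⟫ • (bL i : E) := by
      have := congrArg (fun x : L => (x : E)) h1
      simpa using this
    rw [h2]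
    refine Submodule.sum_mem _ fun i _ => Submodule.smul_mem _ _ (Submodule.subset_span ?_)
    have hi : i.1 < n + 1 := lt_of_lt_of_le i.2 hL
    refine ⟨⟨i.1, hi⟩, ?_⟩
    show B (Fin.castLE hnd ⟨i.1, hi⟩) = _
    rw [hB _ (show (Fin.castLE hnd ⟨i.1, hi⟩).1 < r from i.2), hw]
    exact dif_pos i.2
  · have h3 : B (Fin.castLE hnd 0) = (c' : E) := by
      rw [hB _ (show (Fin.castLE hnd 0).1 < r from hr0), hw]
      show (if h : (Fin.castLE hnd 0).1 < r then (bL ⟨(Fin.castLE hnd 0).1, h⟩ : E) else 0) = c'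
      rw [dif_pos (show (Fin.castLE hnd 0).1 < r from hr0)]
      have : (⟨(Fin.castLE hnd 0).1, hr0⟩ : Fin r) = ⟨0, hr0⟩ := rfl
      rw [this, hbL]
    show b ≤ ⟪B (Fin.castLE hnd 0), u⟫
    rw [h3]
    exact hc'u u hu

variable [FiniteDimensional ℝ E] [MeasurableSpace E] [BorelSpace E]

/-- **Main theorem.** -/
theorem cover_narrow {k d : ℕ} (hk : 2 ≤ k) (hkd : k ≤ d) (hd : finrank ℝ E = d) {b : ℝ}
    (hb0 : 0 < b) (hb1 : b < 1) {N : ℕ}
    (hN : 4 * √(2 * Real.pi * k) * (d * k) *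
      Real.log (1 + 1056 * (k : ℝ) ^ 3 * d / b ^ 3) * (1 / b) ^ (k - 1) < N)
    {K : Set E} (hK : Convex ℝ K) (hKc : IsCompact K) (hKi : (interior K).Nonempty)
    (F : Finset E) (hF : ∀ x ∈ K.extremePoints ℝ, x ∉ F → NarrowAt k b K x) :
    Cov (F.card + N) K := by
  classical
  obtain ⟨n, rfl⟩ : ∃ n, k = n + 1 := ⟨k - 1, by omega⟩
  obtain ⟨m, rfl⟩ : ∃ m, d = n + 1 + m := ⟨d - (n + 1), by omega⟩
  have hn : 1 ≤ n := by omega
  have hN' : 4 * √(2 * Real.pi * ((n : ℝ) + 1)) * (((n + 1 + m : ℕ) : ℝ) * ((n : ℝ) + 1)) *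
      Real.log (1 + 1056 * ((n : ℝ) + 1) ^ 3 * ((n + 1 + m : ℕ) : ℝ) / b ^ 3) * (1 / b) ^ n < N := by
    have e : ((n + 1 : ℕ) : ℝ) = (n : ℝ) + 1 := by push_cast; ring
    rw [e, Nat.add_sub_cancel] at hN
    exact hN
  obtain ⟨T, hT, hTf⟩ := frames (E := E) hn hd rfl hb0 hb1 hN'
  have hch : ∀ x : E, ∃ U, Lit K x U := fun x => exists_lit hKi
  choose U hU using hch
  have hTne : ∃ v, v ∈ T := by
    have hle : n + 1 ≤ finrank ℝ E := by omega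
    obtain ⟨v, hv, -⟩ := hTf (fun i => stdOrthonormalBasis ℝ E (Fin.castLE hle i))
      ((stdOrthonormalBasis ℝ E).orthonormal.comp _ (Fin.castLE_injective hle))
    exact ⟨v, hv⟩
  have h := cover_of_lit hK hKc hKi (F.image U ∪ T) ?_
  · obtain ⟨s, hs, hcov⟩ := h
    refine ⟨s, hs.trans ((Finset.card_union_le _ _).trans ?_), hcov⟩
    have := Finset.card_image_le (s := F) (f := U)
    omega
  · intro x hx
    obtain ⟨e, he, hee⟩ := Pool.Agent.K3h76.UC.exists_ext hKc hx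
    by_cases heF : e ∈ F
    · refine ⟨U e, Finset.mem_union_left _ (Finset.mem_image_of_mem _ heF), fun u hu => ?_⟩
      exact hU e u (hee u hu)
    · obtain ⟨L, c, hL, hc, hLc⟩ := hF e he heF
      rcases Set.eq_empty_or_nonempty {u : E | Nml K e u} with hem | hne
      · obtain ⟨v, hv⟩ := hTne
        refine ⟨v, Finset.mem_union_right _ hv, fun u hu => ?_⟩
        have : u ∈ {u : E | Nml K e u} := hee u hu
        rw [hem] at this
        exact absurd this (by simp)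
      · obtain ⟨f, hf, hfu⟩ := exists_frame hd (by omega) hL hc hb0 hne
          (fun u hu => hLc u hu.1 hu.2)
        obtain ⟨v, hv, h1, h2⟩ := hTf f hf
        refine ⟨v, Finset.mem_union_right _ hv, fun u hu => ?_⟩
        have hu' := hee u hu
        obtain ⟨h3, h4⟩ := hfu u hu'
        exact good hf hb0 hb1 h1 h2 hu'.1 h3 h4

omit [FiniteDimensional ℝ E] [MeasurableSpace E] [BorelSpace E] in
lemma NarrowAt.mono {k k' : ℕ} (hkk : k ≤ k') {b : ℝ} {K : Set E} {x : E}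
    (h : NarrowAt k b K x) : NarrowAt k' b K x := by
  obtain ⟨L, c, h1, h2, h3⟩ := h
  exact ⟨L, c, h1.trans hkk, h2, h3⟩

omit [MeasurableSpace E] [BorelSpace E] in
/-- Pairwise inner products. -/
lemma narrowAt_of_pairs {d k : ℕ} (hd : finrank ℝ E = d) (hd1 : 1 ≤ d) {a : ℝ} (ha0 : 0 ≤ a)
    (ha1 : a ≤ 1) {K : Set E} {x : E} (L : Submodule ℝ E) (hL : finrank ℝ L ≤ k)
    (hN : ∀ u : E, ‖u‖ = 1 → (∀ y ∈ K, ⟪u, y⟫ ≤ ⟪u, x⟫) → u ∈ L)
    (hp : ∀ u v : E, ‖u‖ = 1 → ‖v‖ = 1 → (∀ y ∈ K, ⟪u, y⟫ ≤ ⟪u, x⟫) →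
      (∀ y ∈ K, ⟪v, y⟫ ≤ ⟪v, x⟫) → a ≤ ⟪u, v⟫) : NarrowAt k (√a) K x := by
  rcases Set.eq_empty_or_nonempty {u : E | ‖u‖ = 1 ∧ ∀ y ∈ K, ⟪u, y⟫ ≤ ⟪u, x⟫} with hem | hne
  · have : Nontrivial E := Module.nontrivial_of_finrank_pos (R := ℝ) (by omega)
    obtain ⟨e, he⟩ := exists_ne (0 : E)
    refine ⟨L, (‖e‖)⁻¹ • e, hL, by
      rw [norm_smul, norm_inv, norm_norm, inv_mul_cancel₀ (norm_pos_iff.2 he).ne'], ?_⟩
    intro u hu hux
    have : u ∈ {u : E | ‖u‖ = 1 ∧ ∀ y ∈ K, ⟪u, y⟫ ≤ ⟪u, x⟫} := ⟨hu, hux⟩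
    rw [hem] at this
    exact absurd this (by simp)
  · obtain ⟨c, hc1, hc⟩ := centre hd ha0 ha1 hne (fun u hu => hu.1)
      (fun u hu v hv => hp u v hu.1 hv.1 hu.2 hv.2)
    refine ⟨L, c, hL, hc1, fun u hu hux => ⟨hN u hu hux, ?_⟩⟩
    obtain ⟨h1, h2⟩ := hc u ⟨hu, hux⟩
    rw [Real.sqrt_le_left h1.le]
    have hd0 : (0 : ℝ) ≤ d := Nat.cast_nonneg d
    by_contra hcon
    push Not at hcon
    have h3 : ((d : ℝ) + 1) * ⟪c, u⟫ ^ 2 < (d + 1) * a := mul_lt_mul_of_pos_left hcon (by linarith)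
    nlinarith

omit [FiniteDimensional ℝ E] [MeasurableSpace E] [BorelSpace E] in
/-- Sums. -/
lemma narrowAt_add {k : ℕ} {b : ℝ} {W L : Set E} (hWc : IsCompact W)
    (hW : ∀ x ∈ W.extremePoints ℝ, NarrowAt k b W x) {x : E} (hx : x ∈ W + L) :
    NarrowAt k b (W + L) x := by
  obtain ⟨w, hw, l, hl, rfl⟩ := hx
  obtain ⟨e, he, hee⟩ := Pool.Agent.K3h76.UC.exists_ext hWc hw
  obtain ⟨M, c, h1, h2, h3⟩ := hW e he
  refine ⟨M, c, h1, h2, fun u hu hux => ?_⟩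
  have h4 : Nml W w u := by
    refine ⟨hu, fun y hy => ?_⟩
    have := hux (y + l) ⟨y, hy, l, hl, rfl⟩
    simp only [inner_add_right] at this
    linarith
  exact h3 u hu (hee u h4).2

/-- In large dimensions. -/
lemma asymp {θ b : ℝ} (hθ0 : 0 < θ) (hθ1 : θ ≤ 1) (hb0 : 0 < b) (hb1 : b < 1)
    (hbθ : 1 < 2 * b ^ θ) : ∃ d₀ : ℕ, 2 ≤ d₀ ∧ ∀ d : ℕ, d₀ ≤ d → (2 : ℝ) ≤ θ * d ∧
      ∀ k : ℕ, 2 ≤ k → (k : ℝ) ≤ θ * d →
      4 * √(2 * Real.pi * k) * (d * k) * Real.log (1 + 1056 * (k : ℝ) ^ 3 * d / b ^ 3) *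
        (1 / b) ^ (k - 1) < 2 ^ (d - 1) - 1 := by
  set q : ℝ := (1 / b) ^ θ with hq
  have hb1' : 1 < 1 / b := by rw [lt_div_iff₀ hb0]; linarith
  have hq0 : 0 < q := Real.rpow_pos_of_pos (by positivity) θ
  have hq1 : 1 ≤ q := Real.one_le_rpow hb1'.le hθ0.le
  have hq2 : q < 2 := by
    have h1 : q * b ^ θ = 1 := by
      rw [hq, ← Real.mul_rpow (by positivity) hb0.le, one_div, inv_mul_cancel₀ hb0.ne',
        Real.one_rpow]
    have h2 : 0 < b ^ θ := Real.rpow_pos_of_pos hb0 θ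
    by_contra hcon
    push Not at hcon
    nlinarith
  set C : ℝ := 12000 / b ^ 3 with hC
  have hC0 : 0 < C := by positivity
  have hr : |q / 2| < 1 := by
    rw [abs_of_pos (by positivity)]
    linarith
  have hlim := (tendsto_pow_const_mul_const_pow_of_abs_lt_one 7 hr).const_mul (4 * C)
  rw [mul_zero] at hlim
  have hev := hlim.eventually (gt_mem_nhds (show (0 : ℝ) < 1 by norm_num))
  obtain ⟨d₁, hd₁⟩ := Filter.eventually_atTop.1 hev
  obtain ⟨d₂, hd₂⟩ := exists_nat_ge (2 / θ)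
  refine ⟨max (max d₁ d₂) 4, by omega, fun d hd => ?_⟩
  have hd1 : d₁ ≤ d := by omega
  have hd2 : d₂ ≤ d := by omega
  have hd4 : 4 ≤ d := by omega
  have hd4' : (4 : ℝ) ≤ d := by exact_mod_cast hd4
  have hθd : 2 ≤ θ * d := by
    have h1 : 2 / θ ≤ d := hd₂.trans (by exact_mod_cast hd2)
    rw [div_le_iff₀ hθ0] at h1
    linarith
  refine ⟨hθd, fun k hk hkd => ?_⟩
  have h3 := hd₁ d hd1
  have hk2 : (2 : ℝ) ≤ k := by exact_mod_cast hk
  have hkd' : (k : ℝ) ≤ d := by nlinarith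
  have hd0 : (0 : ℝ) < d := by linarith
  have hk0 : (0 : ℝ) < k := by linarith
  -- the factors
  have e1 : √(2 * Real.pi * k) ≤ 2 * d := by
    rw [Real.sqrt_le_left (by positivity)]
    have hpi := Real.pi_lt_four
    have : 2 * Real.pi * k ≤ 8 * d := by nlinarith [Real.pi_pos]
    nlinarith
  have e2 : Real.log (1 + 1056 * (k : ℝ) ^ 3 * d / b ^ 3) ≤ 1056 * (d : ℝ) ^ 4 / b ^ 3 := by
    have h4 : 0 ≤ 1056 * (k : ℝ) ^ 3 * d / b ^ 3 := by positivity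
    have h5 := Real.log_le_sub_one_of_pos (show 0 < 1 + 1056 * (k : ℝ) ^ 3 * d / b ^ 3 by
      linarith)
    have h6 : 1056 * (k : ℝ) ^ 3 * d / b ^ 3 ≤ 1056 * (d : ℝ) ^ 4 / b ^ 3 := by
      refine div_le_div_of_nonneg_right ?_ (by positivity)
      have : (k : ℝ) ^ 3 ≤ d ^ 3 := pow_le_pow_left₀ hk0.le hkd' 3
      nlinarith
    linarith
  have e3 : (1 / b) ^ (k - 1) ≤ q ^ d := by
    have h4 : (1 / b) ^ (k - 1) ≤ (1 / b) ^ k := pow_le_pow_right₀ hb1'.le (Nat.sub_le _ _)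
    refine h4.trans ?_
    rw [← Real.rpow_natCast, ← Real.rpow_natCast, hq, ← Real.rpow_mul (by positivity)]
    exact Real.rpow_le_rpow_of_exponent_le hb1'.le hkd
  have hlog0 : 0 ≤ Real.log (1 + 1056 * (k : ℝ) ^ 3 * d / b ^ 3) := by
    refine Real.log_nonneg ?_
    have : 0 ≤ 1056 * (k : ℝ) ^ 3 * d / b ^ 3 := by positivity
    linarith
  have hb3 : 1 ≤ 1 / b ^ 3 := by
    rw [le_div_iff₀ (by positivity), one_mul]
    exact pow_le_one₀ hb0.le hb1.le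
  have e4 : 4 * √(2 * Real.pi * k) * (d * k) * Real.log (1 + 1056 * (k : ℝ) ^ 3 * d / b ^ 3) *
      (1 / b) ^ (k - 1) ≤ 4 * (2 * d) * (d * d) * (1056 * (d : ℝ) ^ 4 / b ^ 3) * q ^ d := by
    gcongr
  have e5 : 4 * (2 * d) * (d * d) * (1056 * (d : ℝ) ^ 4 / b ^ 3) * q ^ d + 1 ≤
      C * (d : ℝ) ^ 7 * q ^ d := by
    have h4 : 4 * (2 * d) * (d * d) * (1056 * (d : ℝ) ^ 4 / b ^ 3) * q ^ d =
        8448 * (1 / b ^ 3) * (d : ℝ) ^ 7 * q ^ d := by ring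
    have h5 : C * (d : ℝ) ^ 7 * q ^ d = 12000 * (1 / b ^ 3) * (d : ℝ) ^ 7 * q ^ d := by
      rw [hC]; ring
    rw [h4, h5]
    have h6 : 1 ≤ (1 / b ^ 3) * (d : ℝ) ^ 7 * q ^ d := by
      have h7 : (1 : ℝ) ≤ (d : ℝ) ^ 7 := one_le_pow₀ (by linarith)
      have h8 : (1 : ℝ) ≤ q ^ d := one_le_pow₀ hq1
      have h9 : 1 ≤ (1 / b ^ 3) * (d : ℝ) ^ 7 := one_le_mul_of_one_le_of_one_le hb3 h7
      exact one_le_mul_of_one_le_of_one_le h9 h8
    linarith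
  have e6 : C * (d : ℝ) ^ 7 * q ^ d < 2 ^ (d - 1) := by
    have h4 : (2 : ℝ) ^ d = 2 ^ (d - 1) * 2 := by
      rw [← pow_succ]
      congr 1
      omega
    have h5 : 4 * C * ((d : ℝ) ^ 7 * (q / 2) ^ d) * 2 ^ d < 1 * 2 ^ d :=
      mul_lt_mul_of_pos_right h3 (by positivity)
    have h6 : 4 * C * ((d : ℝ) ^ 7 * (q / 2) ^ d) * 2 ^ d = 4 * (C * (d : ℝ) ^ 7 * q ^ d) := by
      rw [div_pow]
      field_simp
    rw [h6, one_mul, h4] at h5
    have : 0 < C * (d : ℝ) ^ 7 * q ^ d := by positivity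
    linarith
  linarith

end Pool.Agent.K3h76.NC
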