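import Pool.Agent.K3h76.NC.Meas

set_option autoImplicit false

/-!
Sets of directions given by orthonormal families, and sets of points which meet all of them.
-/

namespace Pool.Agent.K3h76.NC

open scoped RealInnerProductSpace ENNReal
open MeasureTheory Module Metric Set Pool.Agent.K3h76.SD

section Hit

variable {E : Type*} [NormedAddCommGroup E] [InnerProductSpace ℝ E] [FiniteDimensional ℝ E]
  [MeasurableSpace E] [BorelSpace E]

open Classical in
/-- Some point lies in many of the sets. -/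
lemma heavy {ι : Type*} (S : Finset ι) (D : ι → Set E) (hm : ∀ i ∈ S, MeasurableSet (D i))
    (hD : ∀ i ∈ S, D i ⊆ closedBall 0 1) {p : ℝ}
    (hp : ∀ i ∈ S, p * volume.real (closedBall (0 : E) 1) ≤ volume.real (D i)) :
    ∃ y : E, p * S.card ≤ ((S.filter fun i => y ∈ D i).card : ℝ) := by
  set B : Set E := closedBall (0 : E) 1 with hB
  have hB0 : volume B ≠ 0 := (measure_closedBall_pos volume (0 : E) one_pos).ne'
  have hBt : volume B ≠ ⊤ := by
    have := FiniteDimensional.proper ℝ E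
    exact (isCompact_closedBall _ _).measure_lt_top.ne
  set f : E → ℝ := fun y => ∑ i ∈ S, (D i).indicator (fun _ => (1 : ℝ)) y with hf
  have hintm : ∀ i ∈ S, IntegrableOn ((D i).indicator (fun _ => (1 : ℝ))) B volume := by
    intro i hi
    exact IntegrableOn.indicator (integrableOn_const hBt (by simp)) (hm i hi)
  have hint : IntegrableOn f B volume := by
    rw [hf]
    exact integrable_finsetSum S hintm
  obtain ⟨y, hy, hle⟩ := exists_setAverage_le (μ := volume) (s := B) (f := f) hB0 hBt hint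
  refine ⟨y, ?_⟩
  have hfy : f y = ((S.filter fun i => y ∈ D i).card : ℝ) := by
    rw [hf, Finset.card_filter]
    push_cast
    refine Finset.sum_congr rfl fun m _ => ?_
    by_cases h : y ∈ D m
    · rw [indicator_of_mem h, if_pos h]
    · rw [indicator_of_notMem h, if_neg h]
  have hBr : 0 < volume.real B := by
    rw [measureReal_def]
    exact ENNReal.toReal_pos hB0 hBt
  have hav : p * S.card ≤ ⨍ x in B, f x := by
    rw [setAverage_eq, smul_eq_mul, ← div_eq_inv_mul, le_div_iff₀ hBr]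
    have h1 : ∫ x in B, f x = ∑ i ∈ S, volume.real (D i) := by
      rw [hf, integral_finsetSum S hintm]
      refine Finset.sum_congr rfl fun i hi => ?_
      rw [setIntegral_indicator (hm i hi), setIntegral_const, smul_eq_mul, mul_one,
        inter_eq_self_of_subset_right (hD i hi)]
    rw [h1]
    calc p * (S.card : ℝ) * volume.real B = ∑ i ∈ S, p * volume.real B := by
          rw [Finset.sum_const, nsmul_eq_mul]; ring
      _ ≤ ∑ i ∈ S, volume.real (D i) := Finset.sum_le_sum hp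
  linarith

open Classical in
lemma greedy {ι : Type*} (S : Finset ι) (D : ι → Set E) (hm : ∀ i ∈ S, MeasurableSet (D i))
    (hD : ∀ i ∈ S, D i ⊆ closedBall 0 1) {p : ℝ} (hp1 : p ≤ 1)
    (hp : ∀ i ∈ S, p * volume.real (closedBall (0 : E) 1) ≤ volume.real (D i)) (k : ℕ) :
    ∃ T : Finset E, T.card ≤ k ∧
      ((S.filter fun i => ∀ y ∈ T, y ∉ D i).card : ℝ) ≤ (1 - p) ^ k * S.card := by
  induction k with
  | zero => exact ⟨∅, by simp, by simp⟩
  | succ k ih =>
    obtain ⟨T, hT, hTc⟩ := ih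
    set U := S.filter fun i => ∀ y ∈ T, y ∉ D i with hU
    have hUS : ∀ i ∈ U, i ∈ S := fun i hi => (Finset.mem_filter.1 hi).1
    obtain ⟨y, hy⟩ := heavy U D (fun i hi => hm i (hUS i hi)) (fun i hi => hD i (hUS i hi))
      (fun i hi => hp i (hUS i hi))
    refine ⟨insert y T, (Finset.card_insert_le _ _).trans (by omega), ?_⟩
    have h1 : (S.filter fun i => ∀ z ∈ insert y T, z ∉ D i) = U.filter fun i => y ∉ D i := by
      ext m
      simp only [hU, Finset.mem_filter, Finset.mem_insert, forall_eq_or_imp]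
      tauto
    have h2 : ((U.filter fun i => y ∈ D i).card : ℝ) + ((U.filter fun i => y ∉ D i).card : ℝ) =
        U.card := by
      exact_mod_cast Finset.card_filter_add_card_filter_not (s := U) (fun i => y ∈ D i)
    rw [h1]
    have h3 : ((U.filter fun i => y ∉ D i).card : ℝ) ≤ (1 - p) * U.card := by linarith
    refine h3.trans ?_
    rw [pow_succ]
    have := mul_le_mul_of_nonneg_left hTc (show 0 ≤ 1 - p by linarith)
    linarith

/-- A small set which meets all sets. -/
theorem hit {ι : Type*} (S : Finset ι) (D : ι → Set E) (hm : ∀ i ∈ S, MeasurableSet (D i))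
    (hD : ∀ i ∈ S, D i ⊆ closedBall 0 1) {p : ℝ} (hp1 : p ≤ 1)
    (hp : ∀ i ∈ S, p * volume.real (closedBall (0 : E) 1) ≤ volume.real (D i)) {N : ℝ}
    (hN : 0 < N) (hSN : (S.card : ℝ) ≤ N) {k : ℕ} (hk : Real.log N < k * p) :
    ∃ T : Finset E, T.card ≤ k ∧ ∀ i ∈ S, ∃ y ∈ T, y ∈ D i := by
  classical
  obtain ⟨T, hT, hTc⟩ := greedy S D hm hD hp1 hp k
  refine ⟨T, hT, ?_⟩
  have h1 : ((S.filter fun i => ∀ y ∈ T, y ∉ D i).card : ℝ) < 1 := by
    have h2 : (1 - p) ^ k * (S.card : ℝ) ≤ (1 - p) ^ k * N :=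
      mul_le_mul_of_nonneg_left hSN (pow_nonneg (by linarith) _)
    refine (hTc.trans h2).trans_lt ?_
    have h5 : (1 - p) ^ k ≤ Real.exp (-(k * p)) := by
      have h6 : 1 - p ≤ Real.exp (-p) := by
        have := Real.add_one_le_exp (-p)
        linarith
      refine (pow_le_pow_left₀ (by linarith) h6 _).trans (le_of_eq ?_)
      rw [← Real.exp_nat_mul]
      congr 1
      ring
    have h7 : (1 - p) ^ k * N ≤ Real.exp (-(k * p)) * Real.exp (Real.log N) := by
      rw [Real.exp_log hN]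
      exact mul_le_mul_of_nonneg_right h5 hN.le
    refine h7.trans_lt ?_
    rw [← Real.exp_add, Real.exp_lt_one_iff]
    linarith
  have h0 : (S.filter fun i => ∀ y ∈ T, y ∉ D i).card = 0 := by
    have : (S.filter fun i => ∀ y ∈ T, y ∉ D i).card < 1 := by exact_mod_cast h1
    omega
  rw [Finset.card_eq_zero, Finset.filter_eq_empty_iff] at h0
  intro i hi
  have := h0 hi
  push Not at this
  exact this

end Hit

section Fr

variable {E : Type*} [NormedAddCommGroup E] [InnerProductSpace ℝ E]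

/-- the square of the norm of the projection -/
noncomputable def sq {n : ℕ} (f : Fin (n + 1) → E) (v : E) : ℝ := ∑ i, ⟪f i, v⟫ ^ 2

/-- the directions given by a frame -/
def DF {n : ℕ} (c τ : ℝ) (f : Fin (n + 1) → E) : Set E :=
  {v | ‖v‖ ≤ 1 ∧ c * √(sq f v) ≤ ⟪f 0, v⟫ ∧ τ ≤ √(sq f v)}

lemma DF_closed {n : ℕ} (c τ : ℝ) (f : Fin (n + 1) → E) : IsClosed (DF c τ f) := by
  have hc : Continuous fun v : E => √(sq f v) := by unfold sq; fun_prop
  refine (isClosed_le continuous_norm continuous_const).inter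
    ((isClosed_le (continuous_const.mul hc) (by fun_prop)).inter
      (isClosed_le continuous_const hc))

variable [FiniteDimensional ℝ E] [MeasurableSpace E] [BorelSpace E]

/-- the model space -/
abbrev P (n m : ℕ) : Type := WithLp 2 (Fs n × V m)

lemma finrank_P (n m : ℕ) : finrank ℝ (P n m) = n + 1 + m := by
  rw [(WithLp.linearEquiv 2 ℝ (Fs n × V m)).finrank_eq, Module.finrank_prod, finrank_Fs,
    finrank_euclideanSpace_fin]

omit [MeasurableSpace E] [BorelSpace E] in
lemma ext_frame {n m : ℕ} (hF : finrank ℝ E = n + 1 + m) {g : Fin (n + 1) → E}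
    (hg : Orthonormal ℝ g) :
    ∃ b : OrthonormalBasis (Fin (n + 1) ⊕ Fin m) ℝ E, ∀ i, b (Sum.inl i) = g i := by
  set v : Fin (n + 1) ⊕ Fin m → E := Sum.elim g (fun _ => 0) with hv
  have hv' : Orthonormal ℝ ((range (Sum.inl : Fin (n + 1) → Fin (n + 1) ⊕ Fin m)).domRestrict
      v) := by
    constructor
    · rintro ⟨_, i, rfl⟩
      exact hg.1 i
    · rintro ⟨_, i, rfl⟩ ⟨_, j, rfl⟩ hij
      exact hg.2 (fun h => hij (by rw [h]))
  obtain ⟨b, hb⟩ := Orthonormal.exists_orthonormalBasis_extension_of_card_eq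
    (ι := Fin (n + 1) ⊕ Fin m) (by rw [hF]; simp) hv'
  exact ⟨b, fun i => hb _ ⟨i, rfl⟩⟩

theorem DF_vol {c s : ℝ} (hc0 : 0 < c) (hc1 : c < 1) (hs : 0 < s) (hcs : c ^ 2 + s ^ 2 = 1)
    {n m : ℕ} (hn : 1 ≤ n) (hd : finrank ℝ E = n + 1 + m) {ρ : ℝ} (h0 : 0 < ρ) (h1 : ρ ≤ 1)
    (hm : (1 / 2 : ℝ) ≤ √(1 - ρ ^ 2) ^ m) {f : Fin (n + 1) → E} (hf : Orthonormal ℝ f) :
    shareG s n / 2 * volume.real (closedBall (0 : E) 1) ≤ volume.real (DF c (ρ / 4) f) := by
  classical
  -- bases
  obtain ⟨bF, hbF⟩ : ∃ b : OrthonormalBasis (Fin (n + 1)) ℝ (Fs n), b 0 = e1 n := by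
    have hv : Orthonormal ℝ (({0} : Set (Fin (n + 1))).domRestrict (fun _ => e1 n)) := by
      refine ⟨fun _ => norm_e1 n, ?_⟩
      rintro ⟨i, hi⟩ ⟨j, hj⟩ hij
      exact absurd (Subtype.ext ((mem_singleton_iff.1 hi).trans (mem_singleton_iff.1 hj).symm)) hij
    obtain ⟨b, hb⟩ := Orthonormal.exists_orthonormalBasis_extension_of_card_eq
      (ι := Fin (n + 1)) (by rw [finrank_Fs, Fintype.card_fin]) hv
    exact ⟨b, hb 0 rfl⟩
  set ε : Fin (n + 1) → P n m := fun i => WithLp.toLp 2 (bF i, 0) with hε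
  have hinn : ∀ i (p : P n m), ⟪ε i, p⟫ = ⟪bF i, p.fst⟫ := by
    intro i p
    rw [WithLp.prod_inner_apply]
    simp [hε]
  have hεo : Orthonormal ℝ ε := by
    rw [orthonormal_iff_ite]
    intro i j
    rw [hinn]
    exact orthonormal_iff_ite.1 bF.orthonormal i j
  obtain ⟨b, hb⟩ := ext_frame hd hf
  obtain ⟨b', hb'⟩ := ext_frame (finrank_P n m) hεo
  set Φ : E ≃ₗᵢ[ℝ] P n m := b.equiv b' (Equiv.refl _) with hΦ
  have hΦf : ∀ i, Φ (f i) = ε i := by
    intro i
    rw [← hb i, ← hb' i, hΦ, OrthonormalBasis.equiv_apply_basis]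
    rfl
  have hsq : ∀ v : E, sq f v = ‖(Φ v).fst‖ ^ 2 := by
    intro v
    rw [← bF.sum_sq_norm_inner_right (Φ v).fst]
    unfold sq
    refine Finset.sum_congr rfl fun i _ => ?_
    rw [← Φ.inner_map_map, hΦf, hinn, Real.norm_eq_abs, sq_abs]
  have hin0 : ∀ v : E, ⟪f 0, v⟫ = ⟪(Φ v).fst, e1 n⟫ := by
    intro v
    rw [← Φ.inner_map_map, hΦf, hinn, hbF, real_inner_comm]
  have hnorm : ∀ v : E, ‖v‖ ^ 2 = ‖(Φ v).fst‖ ^ 2 + ‖(Φ v).snd‖ ^ 2 := by
    intro v
    rw [← Φ.norm_map v, WithLp.prod_norm_sq_eq_of_L2]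
  have hle : ∀ v : E, ‖v‖ ≤ 1 ↔ ‖(Φ v).fst‖ ^ 2 + ‖(Φ v).snd‖ ^ 2 ≤ 1 := by
    intro v
    rw [← hnorm]
    constructor
    · intro h
      have := pow_le_pow_left₀ (norm_nonneg v) h 2
      simpa using this
    · intro h
      nlinarith [norm_nonneg v]
  -- the two sets in the model space
  set S₁ : Set (P n m) := {p | (p.fst, p.snd) ∈ D0 c n m (ρ / 4)} with hS₁
  set S₂ : Set (P n m) := {p | (p.fst, p.snd) ∈ BB n m} with hS₂
  have hcont : Continuous fun p : P n m => (p.fst, p.snd) := by fun_prop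
  have hS₁c : IsClosed S₁ := (D0_closed c n m _).preimage hcont
  have hS₂c : IsClosed S₂ := (BB_closed n m).preimage hcont
  have hv : ∀ S : Set (P n m), IsClosed S →
      volume (Φ ⁻¹' S) = volume ((WithLp.toLp 2 : Fs n × V m → P n m) ⁻¹' S) := by
    intro S hS
    rw [(WithLp.volume_preserving_toLp (Fs n) (V m)).measure_preimage
      hS.measurableSet.nullMeasurableSet]
    exact (Φ.measurePreserving).measure_preimage hS.measurableSet.nullMeasurableSet
  have e1' : DF c (ρ / 4) f = Φ ⁻¹' S₁ := by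
    ext v
    simp only [DF, mem_ofPred_eq, mem_preimage, hS₁, D0, D1, BB, cone]
    rw [hsq, Real.sqrt_sq (norm_nonneg _), hin0, hle]
    exact and_assoc.symm
  have e2' : closedBall (0 : E) 1 = Φ ⁻¹' S₂ := by
    ext v
    simp only [mem_closedBall, dist_zero_right, mem_preimage, hS₂, BB, mem_ofPred_eq]
    exact hle v
  have f1 : volume (DF c (ρ / 4) f) = volume (D0 c n m (ρ / 4)) := by
    rw [e1', hv _ hS₁c]
    rfl
  have f2 : volume (closedBall (0 : E) 1) = volume (BB n m) := by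
    rw [e2', hv _ hS₂c]
    rfl
  have h2 := share_D0 hc0 hc1 hs hcs hn h0 h1 hm
  rw [← f1, ← f2] at h2
  have hfin : volume (DF c (ρ / 4) f) ≠ ⊤ := by
    have hp := FiniteDimensional.proper ℝ E
    exact ne_top_of_le_ne_top (isCompact_closedBall (0 : E) 1).measure_lt_top.ne
      (measure_mono fun v hv => by simpa using hv.1)
  have h3 := ENNReal.toReal_mono hfin h2
  rw [ENNReal.toReal_mul, ENNReal.toReal_ofReal (by have := shareG_pos hs (n := n); linarith)] at h3
  exact h3

end Fr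

end Pool.Agent.K3h76.NC
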