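import Pool.Agent.K3h76.NC.Frame

set_option autoImplicit false

/-!
A small set of directions which is good for all circular cones in subspaces of small dimension.
-/

namespace Pool.Agent.K3h76.NC

open scoped RealInnerProductSpace ENNReal
open MeasureTheory Module Metric Set Pool.Agent.K3h76.SD

section

variable {E : Type*} [NormedAddCommGroup E] [InnerProductSpace ℝ E]

lemma sq_perturb {n : ℕ} {f g : Fin (n + 1) → E} {Δ : ℝ} (hΔ : 0 ≤ Δ)
    (h : ∀ i, ‖f i - g i‖ ≤ Δ) {v : E} (hv : ‖v‖ ≤ 1) :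
    √(sq f v) ≤ √(sq g v) + Δ * √((n : ℝ) + 1) := by
  set x : EuclideanSpace ℝ (Fin (n + 1)) := WithLp.toLp 2 fun i => ⟪f i, v⟫ with hx
  set y : EuclideanSpace ℝ (Fin (n + 1)) := WithLp.toLp 2 fun i => ⟪g i, v⟫ with hy
  have h1 : ‖x‖ = √(sq f v) := by
    rw [EuclideanSpace.norm_eq, sq]
    congr 1
    exact Finset.sum_congr rfl fun i _ => by rw [Real.norm_eq_abs, sq_abs]
  have h2 : ‖y‖ = √(sq g v) := by
    rw [EuclideanSpace.norm_eq, sq]
    congr 1
    exact Finset.sum_congr rfl fun i _ => by rw [Real.norm_eq_abs, sq_abs]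
  have h3 : ‖x - y‖ ≤ Δ * √((n : ℝ) + 1) := by
    rw [EuclideanSpace.norm_eq]
    have h4 : ∑ i, ‖(x - y) i‖ ^ 2 ≤ Δ ^ 2 * ((n : ℝ) + 1) := by
      calc ∑ i, ‖(x - y) i‖ ^ 2 ≤ ∑ _i : Fin (n + 1), Δ ^ 2 := by
            refine Finset.sum_le_sum fun i _ => ?_
            have e : (x - y) i = ⟪f i - g i, v⟫ := by
              rw [inner_sub_left]
              rfl
            rw [e]
            refine pow_le_pow_left₀ (norm_nonneg _) ?_ 2
            refine (norm_inner_le_norm _ _).trans ?_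
            calc ‖f i - g i‖ * ‖v‖ ≤ Δ * 1 := mul_le_mul (h i) hv (norm_nonneg _) hΔ
              _ = Δ := mul_one _
        _ = Δ ^ 2 * ((n : ℝ) + 1) := by
            rw [Finset.sum_const, Finset.card_univ, Fintype.card_fin, nsmul_eq_mul]
            push_cast
            ring
    refine (Real.sqrt_le_sqrt h4).trans (le_of_eq ?_)
    rw [Real.sqrt_mul (sq_nonneg _), Real.sqrt_sq hΔ]
  rw [← h1, ← h2]
  calc ‖x‖ = ‖y + (x - y)‖ := by congr 1; abel
    _ ≤ ‖y‖ + ‖x - y‖ := norm_add_le _ _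
    _ ≤ _ := by linarith

/-- The numbers. -/
lemma nums {b k : ℝ} (hb0 : 0 < b) (hb1 : b < 1) (hk : 1 ≤ k) :
    let s := b * (1 - 1 / (2 * k))
    let c := √(1 - s ^ 2)
    0 < s ∧ 0 < c ∧ c < 1 ∧ c ^ 2 + s ^ 2 = 1 ∧ b / (2 * k) ≤ c ∧
      b ^ 2 / (4 * k) ≤ c - √(1 - b ^ 2) := by
  intro s c
  have hk0 : 0 < k := by linarith
  have h1 : 0 < 1 / (2 * k) := by positivity
  have h2 : 1 / (2 * k) ≤ 1 / 2 := by
    rw [div_le_div_iff₀ (by positivity) (by norm_num)]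
    linarith
  have hs0 : 0 < s := mul_pos hb0 (by linarith)
  have hsb : s < b := by
    have : b * (1 - 1 / (2 * k)) < b * 1 := mul_lt_mul_of_pos_left (by linarith) hb0
    simpa [s] using this
  have hs2 : s ^ 2 < 1 := by nlinarith
  have hc2 : c ^ 2 = 1 - s ^ 2 := Real.sq_sqrt (by linarith)
  have hc0 : 0 < c := Real.sqrt_pos.2 (by linarith)
  have hc1 : c < 1 := by
    by_contra hcon
    push Not at hcon
    nlinarith
  have hcs2 : √(1 - b ^ 2) ^ 2 = 1 - b ^ 2 := Real.sq_sqrt (by nlinarith)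
  have hcs0 : 0 ≤ √(1 - b ^ 2) := Real.sqrt_nonneg _
  have hcs1 : √(1 - b ^ 2) ≤ 1 := by
    by_contra hcon
    push Not at hcon
    nlinarith
  -- `b² - s² ≥ b² / (2k)`
  have h3 : b ^ 2 / (2 * k) ≤ b ^ 2 - s ^ 2 := by
    have e1 : b ^ 2 - s ^ 2 = b ^ 2 * (1 / (2 * k)) * (2 - 1 / (2 * k)) := by
      simp only [s]
      ring
    have e2 : b ^ 2 / (2 * k) = b ^ 2 * (1 / (2 * k)) * 1 := by ring
    rw [e1, e2]
    exact mul_le_mul_of_nonneg_left (by linarith) (by positivity)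
  refine ⟨hs0, hc0, hc1, by rw [hc2]; ring, ?_, ?_⟩
  · refine le_of_sq_le_sq ?_ hc0.le
    rw [hc2, div_pow]
    have h4 : b ^ 2 / (2 * k) ^ 2 ≤ b ^ 2 / (2 * k) := by
      refine div_le_div_of_nonneg_left (by positivity) (by positivity) ?_
      nlinarith
    nlinarith
  · have h5 : (c - √(1 - b ^ 2)) * (c + √(1 - b ^ 2)) = b ^ 2 - s ^ 2 := by
      have : (c - √(1 - b ^ 2)) * (c + √(1 - b ^ 2)) = c ^ 2 - √(1 - b ^ 2) ^ 2 := by ring
      rw [this, hc2, hcs2]
      ring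
    have h6 : 0 < b ^ 2 / (2 * k) := by positivity
    have h7 : 0 < c - √(1 - b ^ 2) := by
      by_contra hcon
      push Not at hcon
      have : (c - √(1 - b ^ 2)) * (c + √(1 - b ^ 2)) ≤ 0 :=
        mul_nonpos_of_nonpos_of_nonneg hcon (by linarith)
      linarith
    have h8 : (c - √(1 - b ^ 2)) * (c + √(1 - b ^ 2)) ≤ (c - √(1 - b ^ 2)) * 2 :=
      mul_le_mul_of_nonneg_left (by linarith) h7.le
    have h9 : b ^ 2 / (4 * k) = b ^ 2 / (2 * k) / 2 := by
      rw [div_div]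
      congr 1
      ring
    rw [h9]
    linarith

/-- A direction good for a frame is good for all near frames. -/
lemma transfer {n : ℕ} {b : ℝ} (hb0 : 0 < b) (hb1 : b < 1) {τ Δ : ℝ} (hτ : 0 < τ) (hΔ0 : 0 ≤ Δ)
    (hΔ : Δ * (33 * ((n : ℝ) + 1) ^ 3) ≤ b ^ 3 * τ) {f g : Fin (n + 1) → E}
    (h : ∀ i, ‖f i - g i‖ ≤ Δ) {v : E}
    (hv : v ∈ DF (√(1 - (b * (1 - 1 / (2 * ((n : ℝ) + 1)))) ^ 2)) τ g) :
    0 < ⟪f 0, v⟫ ∧ √(1 - b ^ 2) * √(sq f v) < ⟪f 0, v⟫ := by
  set k : ℝ := (n : ℝ) + 1 with hk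
  have hk1 : 1 ≤ k := by
    rw [hk]
    have : (0 : ℝ) ≤ n := Nat.cast_nonneg n
    linarith
  obtain ⟨hs0, hc0, hc1, -, hcb, hcc⟩ := nums hb0 hb1 hk1
  set c : ℝ := √(1 - (b * (1 - 1 / (2 * k))) ^ 2) with hc
  set cs : ℝ := √(1 - b ^ 2) with hcs
  obtain ⟨hv1, hv2, hv3⟩ := hv
  have hcs0 : 0 ≤ cs := Real.sqrt_nonneg _
  have h1 := sq_perturb hΔ0 h hv1
  set A := √(sq f v)
  set B := √(sq g v)
  have hk0 : 0 < k := by linarith
  have h2 : ⟪g 0, v⟫ - Δ ≤ ⟪f 0, v⟫ := by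
    have h3 : |⟪f 0 - g 0, v⟫| ≤ Δ := by
      rw [← Real.norm_eq_abs]
      refine (norm_inner_le_norm _ _).trans ?_
      calc ‖f 0 - g 0‖ * ‖v‖ ≤ Δ * 1 := mul_le_mul (h 0) hv1 (norm_nonneg _) hΔ0
        _ = Δ := mul_one _
    rw [inner_sub_left] at h3
    have := (abs_le.1 h3).1
    linarith
  set X := ⟪f 0, v⟫
  set Y := ⟪g 0, v⟫
  have hsk : √k ≤ k := by
    rw [Real.sqrt_le_left (by linarith)]
    nlinarith
  have hsk0 : 0 ≤ √k := Real.sqrt_nonneg _
  -- `Y ≥ c τ ≥ b τ / (2 k)`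
  have h4 : b / (2 * k) * τ ≤ Y := by
    calc b / (2 * k) * τ ≤ c * τ := mul_le_mul_of_nonneg_right hcb hτ.le
      _ ≤ c * B := mul_le_mul_of_nonneg_left hv3 hc0.le
      _ ≤ Y := hv2
  -- `Δ ≤ b τ / (4 k)`
  have hΔ1 : Δ * (4 * k) ≤ b * τ := by
    have h5 : Δ * (4 * k) ≤ Δ * (33 * k ^ 3) := by
      refine mul_le_mul_of_nonneg_left ?_ hΔ0
      have : k ≤ k ^ 3 := by nlinarith [pow_pos hk0 2]
      linarith
    have h6 : b ^ 3 * τ ≤ b * τ := by
      refine mul_le_mul_of_nonneg_right ?_ hτ.le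
      nlinarith [pow_pos hb0 2]
    linarith
  have hΔ2 : Δ ≤ b / (4 * k) * τ := by
    rw [div_mul_eq_mul_div, le_div_iff₀ (by positivity)]
    exact hΔ1
  have h7 : b / (4 * k) * τ ≤ X := by
    have : b / (2 * k) * τ = b / (4 * k) * τ + b / (4 * k) * τ := by
      field_simp
      ring
    linarith
  have hX0 : 0 < X := lt_of_lt_of_le (by positivity) h7
  refine ⟨hX0, ?_⟩
  -- `c A ≤ X + Δ (1 + k)`
  have h8 : c * A ≤ X + Δ * (2 * k) := by
    have h9 : c * A ≤ c * B + c * (Δ * √k) := by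
      rw [← mul_add]
      exact mul_le_mul_of_nonneg_left h1 hc0.le
    have h10 : c * (Δ * √k) ≤ 1 * (Δ * k) :=
      mul_le_mul hc1.le (mul_le_mul_of_nonneg_left hsk hΔ0) (by positivity) zero_le_one
    have h11 : Δ * 1 ≤ Δ * k := mul_le_mul_of_nonneg_left hk1 hΔ0
    linarith
  have hA0 : 0 ≤ A := Real.sqrt_nonneg _
  -- `c cs A ≤ cs X + ... < c X`
  have h12 : Δ * (2 * k) < X * (c - cs) := by
    have h13 : b / (4 * k) * τ * (b ^ 2 / (4 * k)) ≤ X * (c - cs) :=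
      mul_le_mul h7 hcc (by positivity) hX0.le
    refine lt_of_lt_of_le ?_ h13
    have e1 : b / (4 * k) * τ * (b ^ 2 / (4 * k)) = b ^ 3 * τ / (16 * k ^ 2) := by
      field_simp
      ring
    rw [e1, lt_div_iff₀ (by positivity)]
    rcases hΔ0.eq_or_lt with h0 | h0
    · rw [← h0]
      have : 0 < b ^ 3 * τ := by positivity
      linarith
    · have : Δ * (2 * k) * (16 * k ^ 2) < Δ * (33 * k ^ 3) := by
        have : Δ * (2 * k) * (16 * k ^ 2) = Δ * (32 * k ^ 3) := by ring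
        rw [this]
        refine mul_lt_mul_of_pos_left ?_ h0
        have := pow_pos hk0 3
        linarith
      linarith
  have hcs1 : cs ≤ 1 := by
    have : 0 < b ^ 2 / (4 * k) := by positivity
    linarith
  have h14 : cs * (c * A) ≤ cs * X + Δ * (2 * k) := by
    have h15 : cs * (c * A) ≤ cs * (X + Δ * (2 * k)) := mul_le_mul_of_nonneg_left h8 hcs0
    have h16 : cs * (Δ * (2 * k)) ≤ 1 * (Δ * (2 * k)) :=
      mul_le_mul_of_nonneg_right hcs1 (by positivity)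
    rw [mul_add] at h15
    linarith
  have h17 : c * (cs * A) < c * X := by nlinarith
  exact lt_of_mul_lt_mul_left h17 hc0.le

variable [FiniteDimensional ℝ E] [MeasurableSpace E] [BorelSpace E]

/-- **Universal directions.** -/
theorem frames {n m d : ℕ} (hn : 1 ≤ n) (hd : finrank ℝ E = d) (hdm : d = n + 1 + m) {b : ℝ}
    (hb0 : 0 < b) (hb1 : b < 1) {N : ℕ}
    (hN : 4 * √(2 * Real.pi * (n + 1)) * (d * (n + 1)) *
      Real.log (1 + 1056 * ((n : ℝ) + 1) ^ 3 * d / b ^ 3) * (1 / b) ^ n < N) :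
    ∃ T : Finset E, T.card ≤ N ∧ ∀ f : Fin (n + 1) → E, Orthonormal ℝ f →
      ∃ v ∈ T, 0 < ⟪f 0, v⟫ ∧ √(1 - b ^ 2) * √(sq f v) < ⟪f 0, v⟫ := by
  classical
  set k : ℝ := (n : ℝ) + 1 with hk
  have hk1 : 1 ≤ k := by
    rw [hk]
    have : (0 : ℝ) ≤ n := Nat.cast_nonneg n
    linarith
  have hk0 : 0 < k := by linarith
  have hdk : (2 : ℝ) ≤ d := by
    have : 2 ≤ d := by omega
    exact_mod_cast this
  have hd0 : (0 : ℝ) < d := by linarith
  obtain ⟨hs0, hc0, hc1, hcs, -, -⟩ := nums hb0 hb1 hk1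
  set s : ℝ := b * (1 - 1 / (2 * k)) with hs
  set c : ℝ := √(1 - s ^ 2) with hc
  set ρ : ℝ := 1 / (2 * d) with hρ
  have hρ0 : 0 < ρ := by positivity
  have hρ1 : ρ ≤ 1 := by
    rw [hρ, div_le_one (by positivity)]
    linarith
  have hm : (1 / 2 : ℝ) ≤ √(1 - ρ ^ 2) ^ m := by
    have h1 : (1 / 4 : ℝ) ≤ (1 - ρ ^ 2) ^ m := by
      have h2 := one_add_mul_le_pow (a := -ρ ^ 2) (by nlinarith) m
      have h3 : (m : ℝ) * ρ ^ 2 ≤ 1 / 2 := by
        have hmd : (m : ℝ) ≤ d := by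
          have : m ≤ d := by omega
          exact_mod_cast this
        have : (m : ℝ) * ρ ^ 2 ≤ d * ρ ^ 2 := mul_le_mul_of_nonneg_right hmd (sq_nonneg _)
        have e : (d : ℝ) * ρ ^ 2 = 1 / (4 * d) := by
          rw [hρ]
          field_simp
          norm_num
        have : 1 / (4 * (d : ℝ)) ≤ 1 / 2 := by
          rw [div_le_div_iff₀ (by positivity) (by norm_num)]
          linarith
        linarith
      have e4 : (1 + -ρ ^ 2) ^ m = (1 - ρ ^ 2) ^ m := by rw [← sub_eq_add_neg]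
      rw [e4] at h2
      linarith
    refine le_of_sq_le_sq ?_ (by positivity)
    rw [← pow_mul, mul_comm, pow_mul, Real.sq_sqrt (by nlinarith)]
    linarith
  set τ : ℝ := ρ / 4 with hτ
  have hτ0 : 0 < τ := by positivity
  set δ : ℝ := b ^ 3 / (528 * k ^ 3 * d) with hδ
  have hδ0 : 0 < δ := by positivity
  obtain ⟨S, hSc, hS1, hS⟩ := net_sphere (E := E) δ hδ0
  set I : Finset (Fin (n + 1) → E) := (Fintype.piFinset fun _ => S).filter
    (fun g => ∃ f : Fin (n + 1) → E, Orthonormal ℝ f ∧ ∀ i, ‖f i - g i‖ ≤ δ) with hI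
  have hch : ∀ g : Fin (n + 1) → E, ∃ f : Fin (n + 1) → E, g ∈ I →
      Orthonormal ℝ f ∧ ∀ i, ‖f i - g i‖ ≤ δ := by
    intro g
    by_cases hg : g ∈ I
    · obtain ⟨f, hf⟩ := (Finset.mem_filter.1 hg).2
      exact ⟨f, fun _ => hf⟩
    · exact ⟨g, fun h => absurd h hg⟩
  choose F hF using hch
  set N₀ : ℝ := (1 + 2 / δ) ^ (d * (n + 1)) with hN₀
  have hN₀0 : 0 < N₀ := by positivity
  have hIc : (I.card : ℝ) ≤ N₀ := by
    have h1 : I.card ≤ S.card ^ (n + 1) := by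
      refine (Finset.card_filter_le _ _).trans ?_
      rw [Fintype.card_piFinset, Finset.prod_const, Finset.card_univ, Fintype.card_fin]
    have h2 : (I.card : ℝ) ≤ (S.card : ℝ) ^ (n + 1) := by exact_mod_cast h1
    refine h2.trans ?_
    rw [hN₀, pow_mul]
    rw [hd] at hSc
    exact pow_le_pow_left₀ (Nat.cast_nonneg _) hSc _
  set p : ℝ := shareG s n / 2 with hp
  have hp1 : p ≤ 1 := by
    have h1 := shareG_le_one hc0 hc1 hs0 hcs hn
    have h2 := shareG_pos hs0 (n := n)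
    rw [hp]
    linarith
  have hlog : Real.log N₀ < N * p := by
    have e1 : Real.log N₀ = d * k * Real.log (1 + 1056 * k ^ 3 * d / b ^ 3) := by
      rw [hN₀, Real.log_pow]
      have : 1 + 2 / δ = 1 + 1056 * k ^ 3 * d / b ^ 3 := by
        rw [hδ]
        field_simp
        ring
      rw [this]
      push_cast
      rw [hk]
    have hL0 : 0 ≤ Real.log (1 + 1056 * k ^ 3 * d / b ^ 3) := by
      refine Real.log_nonneg ?_
      have : 0 ≤ 1056 * k ^ 3 * d / b ^ 3 := by positivity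
      linarith
    have hpi := Real.pi_pos
    have hq0 : 0 < √(2 * Real.pi * k) := Real.sqrt_pos.2 (by positivity)
    -- `p ≥ b ^ n / (4 √(2 π k))`
    have h3 : b ^ n / (4 * √(2 * Real.pi * k)) ≤ p := by
      have h4 : (1 / 2 : ℝ) ≤ (1 - 1 / (2 * k)) ^ n := by
        have h5 := one_add_mul_le_pow (a := -(1 / (2 * k))) (by
          have : 1 / (2 * k) ≤ 1 := by
            rw [div_le_one (by positivity)]
            linarith
          linarith) n
        have h6 : (n : ℝ) * (1 / (2 * k)) ≤ 1 / 2 := by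
          rw [mul_one_div, div_le_div_iff₀ (by positivity) (by norm_num)]
          rw [hk]
          linarith
        have e4 : (1 + -(1 / (2 * k))) ^ n = (1 - 1 / (2 * k)) ^ n := by rw [← sub_eq_add_neg]
        rw [e4] at h5
        linarith
      have h7 : b ^ n / 2 ≤ s ^ n := by
        rw [hs, mul_pow]
        have := mul_le_mul_of_nonneg_left h4 (pow_nonneg hb0.le n)
        linarith
      have h8 : shareG s n = s ^ n / √(2 * Real.pi * k) := by
        unfold shareG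
        rw [← hk]
        have h9 : √(k / (2 * Real.pi)) * √(2 * Real.pi * k) = k := by
          rw [← Real.sqrt_mul (by positivity)]
          have : k / (2 * Real.pi) * (2 * Real.pi * k) = k ^ 2 := by
            field_simp
          rw [this, Real.sqrt_sq hk0.le]
        rw [eq_div_iff hq0.ne', mul_assoc, h9, div_mul_cancel₀ _ hk0.ne']
      rw [hp, h8, div_div, div_le_div_iff₀ (by positivity) (by positivity)]
      nlinarith [mul_le_mul_of_nonneg_right h7 hq0.le]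
    have h10 : d * k * Real.log (1 + 1056 * k ^ 3 * d / b ^ 3) <
        N * (b ^ n / (4 * √(2 * Real.pi * k))) := by
      rw [← mul_div_assoc, lt_div_iff₀ (by positivity)]
      have h11 : (1 / b) ^ n * b ^ n = 1 := by
        rw [← mul_pow, one_div, inv_mul_cancel₀ hb0.ne', one_pow]
      have h12 := mul_lt_mul_of_pos_right hN (pow_pos hb0 n)
      have h13 : 4 * √(2 * Real.pi * k) * (d * k) * Real.log (1 + 1056 * k ^ 3 * d / b ^ 3) *
          (1 / b) ^ n * b ^ n = 4 * √(2 * Real.pi * k) * (d * k) *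
          Real.log (1 + 1056 * k ^ 3 * d / b ^ 3) * ((1 / b) ^ n * b ^ n) := by ring
      rw [h13, h11, mul_one] at h12
      linarith
    rw [e1]
    exact h10.trans_le (mul_le_mul_of_nonneg_left h3 (Nat.cast_nonneg _))
  obtain ⟨T, hT, hTI⟩ := hit I (fun g => DF c τ (F g))
    (fun g _ => (DF_closed c τ (F g)).measurableSet)
    (fun g _ v hv => by simpa using hv.1) hp1
    (fun g hg => DF_vol hc0 hc1 hs0 hcs hn (hd.trans hdm) hρ0 hρ1 hm (hF g hg).1) hN₀0 hIc hlog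
  refine ⟨T, hT, fun f hf => ?_⟩
  have hg : ∀ i, ∃ g ∈ S, ‖f i - g‖ ≤ δ := fun i => hS (f i) (hf.1 i)
  choose g hgS hgf using hg
  have hgI : g ∈ I := Finset.mem_filter.2 ⟨Fintype.mem_piFinset.2 hgS, f, hf, hgf⟩
  obtain ⟨v, hvT, hv⟩ := hTI g hgI
  refine ⟨v, hvT, transfer (n := n) (Δ := 2 * δ) hb0 hb1 hτ0 (by positivity) ?_ (g := F g) ?_ hv⟩
  · rw [← hk, hδ, hτ, hρ]
    refine le_of_eq ?_
    field_simp
    norm_num
  · intro i
    calc ‖f i - F g i‖ = ‖(f i - g i) - (F g i - g i)‖ := by congr 1; abel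
      _ ≤ ‖f i - g i‖ + ‖F g i - g i‖ := norm_sub_le _ _
      _ ≤ 2 * δ := by linarith [hgf i, (hF g hgI).2 i]

end

end Pool.Agent.K3h76.NC
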