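import Pool.Agent.K3h76.SD.CapG

set_option autoImplicit false

/-!
The part of a ball over a circular cone in a subspace.
-/

namespace Pool.Agent.K3h76.NC

open scoped RealInnerProductSpace Pointwise ENNReal
open MeasureTheory Module Metric Set Pool.Agent.K3h76.SD

/-- a circular cone -/
def cone (c : ℝ) (n : ℕ) : Set (Fs n) := {y | c * ‖y‖ ≤ ⟪y, e1 n⟫}

lemma cone_closed (c : ℝ) (n : ℕ) : IsClosed (cone c n) :=
  isClosed_le (by fun_prop) (by fun_prop)

lemma nt (n : ℕ) : Nontrivial (Fs n) :=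
  Module.nontrivial_of_finrank_pos (R := ℝ) (by rw [finrank_Fs]; omega)

lemma cone_ball (c : ℝ) (n : ℕ) {R : ℝ} (hR : 0 ≤ R) :
    volume (cone c n ∩ closedBall 0 R) = ENNReal.ofReal (R ^ (n + 1)) * volume (capG c n (e1 n)) := by
  have := nt n
  rcases hR.eq_or_lt with rfl | hR
  · have h1 : volume (cone c n ∩ closedBall (0 : Fs n) 0) = 0 := by
      refine measure_mono_null (t := {0}) ?_ (measure_singleton 0)
      rintro y ⟨-, hy⟩
      simpa using hy
    rw [h1]
    simp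
  · have h1 : cone c n ∩ closedBall (0 : Fs n) R = R • capG c n (e1 n) := by
      ext y
      rw [mem_smul_set_iff_inv_smul_mem₀ hR.ne']
      simp only [cone, capG, mem_inter_iff, mem_ofPred_eq, mem_closedBall, dist_zero_right,
        norm_smul, norm_inv, Real.norm_of_nonneg hR.le, inner_smul_left, conj_trivial]
      rw [inv_mul_le_iff₀ hR, mul_one, mul_left_comm, mul_le_mul_iff_right₀ (inv_pos.2 hR)]
      exact and_comm
    rw [h1, Measure.addHaar_smul, finrank_Fs, abs_of_nonneg (by positivity)]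

/-- the integral over the second factor -/
noncomputable def W (n m : ℕ) : ℝ≥0∞ := ∫⁻ z : V m, ENNReal.ofReal (√(1 - ‖z‖ ^ 2) ^ (n + 1))

/-- the ball in the product -/
def BB (n m : ℕ) : Set (Fs n × V m) := {p | ‖p.1‖ ^ 2 + ‖p.2‖ ^ 2 ≤ 1}

/-- the part of the ball over the cone -/
def D1 (c : ℝ) (n m : ℕ) : Set (Fs n × V m) := {p | p ∈ BB n m ∧ p.1 ∈ cone c n}

lemma BB_closed (n m : ℕ) : IsClosed (BB n m) := isClosed_le (by fun_prop) (by fun_prop)

lemma D1_closed (c : ℝ) (n m : ℕ) : IsClosed (D1 c n m) :=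
  (BB_closed n m).inter ((cone_closed c n).preimage continuous_fst)

lemma slice {n m : ℕ} {S : Set (Fs n)} (v : ℝ≥0∞) (hS : MeasurableSet S)
    (h : ∀ R : ℝ, 0 ≤ R → volume (S ∩ closedBall 0 R) = ENNReal.ofReal (R ^ (n + 1)) * v) :
    volume {p : Fs n × V m | p ∈ BB n m ∧ p.1 ∈ S} = v * W n m := by
  have hmeas : MeasurableSet {p : Fs n × V m | p ∈ BB n m ∧ p.1 ∈ S} :=
    (BB_closed n m).measurableSet.inter (measurable_fst hS)
  rw [Measure.volume_eq_prod, Measure.prod_apply_symm hmeas, W,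
    ← lintegral_const_mul' v _ (by
      have h1 := h 1 zero_le_one
      rw [one_pow, ENNReal.ofReal_one, one_mul] at h1
      rw [← h1]
      exact ne_top_of_le_ne_top (by
        rw [ball_vol]; exact ENNReal.ofReal_ne_top) (measure_mono inter_subset_right))]
  refine lintegral_congr fun z => ?_
  rw [mul_comm, ← h _ (Real.sqrt_nonneg _)]
  by_cases hz : ‖z‖ ^ 2 ≤ 1
  · congr 1
    ext y
    simp only [BB, mem_preimage, mem_ofPred_eq, mem_inter_iff, mem_closedBall, dist_zero_right]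
    rw [and_comm, Real.le_sqrt (norm_nonneg _)]
    constructor
    · rintro ⟨h1, h2⟩
      exact ⟨h1, by linarith⟩
    · rintro ⟨h1, h2⟩
      exact ⟨h1, by linarith⟩
    · linarith
  · push Not at hz
    have e1 : √(1 - ‖z‖ ^ 2) = 0 := Real.sqrt_eq_zero_of_nonpos (by linarith)
    rw [h _ (Real.sqrt_nonneg _), e1]
    have e2 : (fun x : Fs n => (x, z)) ⁻¹' {p : Fs n × V m | p ∈ BB n m ∧ p.1 ∈ S} = ∅ := by
      ext y
      simp only [BB, mem_preimage, mem_ofPred_eq, mem_empty_iff_false, iff_false, not_and]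
      intro h1
      have := sq_nonneg ‖y‖
      linarith
    rw [e2]
    simp

lemma D1_vol (c : ℝ) (n m : ℕ) : volume (D1 c n m) = volume (capG c n (e1 n)) * W n m :=
  slice _ (cone_closed c n).measurableSet fun _ hR => cone_ball c n hR

lemma BB_vol (n m : ℕ) : volume (BB n m) = volume (closedBall (0 : Fs n) 1) * W n m := by
  have h := slice (n := n) (m := m) (S := univ) (volume (closedBall (0 : Fs n) 1))
    MeasurableSet.univ (fun R hR => by
      rw [univ_inter, Measure.addHaar_closedBall _ _ hR, Measure.addHaar_closedBall _ _ zero_le_one,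
        finrank_Fs, one_pow, ENNReal.ofReal_one, one_mul])
  simpa using h

/-- the part of the ball over the cone, not too near to the second factor -/
def D0 (c : ℝ) (n m : ℕ) (τ : ℝ) : Set (Fs n × V m) := {p | p ∈ D1 c n m ∧ τ ≤ ‖p.1‖}

lemma D0_closed (c : ℝ) (n m : ℕ) (τ : ℝ) : IsClosed (D0 c n m τ) :=
  (D1_closed c n m).inter (isClosed_le continuous_const continuous_fst.norm)

/-- volume of the unit ball of the second factor -/
noncomputable def bv (m : ℕ) : ℝ≥0∞ := volume (closedBall (0 : V m) 1)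

lemma V_ball (m : ℕ) {R : ℝ} (hR : 0 ≤ R) :
    volume (closedBall (0 : V m) R) = ENNReal.ofReal (R ^ m) * bv m := by
  rw [bv, Measure.addHaar_closedBall _ _ hR, Measure.addHaar_closedBall _ _ zero_le_one,
    finrank_euclideanSpace_fin, one_pow, ENNReal.ofReal_one, one_mul]

lemma Fs_ball (n : ℕ) {R : ℝ} (hR : 0 ≤ R) :
    volume (closedBall (0 : Fs n) R) =
      ENNReal.ofReal (R ^ (n + 1)) * volume (closedBall (0 : Fs n) 1) := by
  rw [Measure.addHaar_closedBall _ _ hR, Measure.addHaar_closedBall _ _ zero_le_one,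
    finrank_Fs, one_pow, ENNReal.ofReal_one, one_mul]

lemma W_low (n m : ℕ) {ρ : ℝ} (h0 : 0 ≤ ρ) (h1 : ρ ≤ 1) :
    ENNReal.ofReal (ρ ^ (n + 1)) * (ENNReal.ofReal (√(1 - ρ ^ 2) ^ m) * bv m) ≤ W n m := by
  have hcb : volume (closedBall (0 : Fs n) 1) ≠ 0 := by
    rw [ball_vol]
    simpa using kap_pos (n + 1)
  have hct : volume (closedBall (0 : Fs n) 1) ≠ ⊤ := by
    rw [ball_vol]
    exact ENNReal.ofReal_ne_top
  have hsub : (closedBall (0 : Fs n) ρ) ×ˢ (closedBall (0 : V m) √(1 - ρ ^ 2)) ⊆ BB n m := by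
    rintro ⟨y, z⟩ ⟨hy, hz⟩
    simp only [mem_closedBall, dist_zero_right] at hy hz
    have h3 := pow_le_pow_left₀ (norm_nonneg _) hy 2
    have h4 := pow_le_pow_left₀ (norm_nonneg _) hz 2
    rw [Real.sq_sqrt (by nlinarith)] at h4
    show ‖y‖ ^ 2 + ‖z‖ ^ 2 ≤ 1
    linarith
  have h5 := measure_mono (μ := volume) hsub
  rw [Measure.volume_eq_prod, Measure.prod_prod, ← Measure.volume_eq_prod, BB_vol, Fs_ball n h0,
    V_ball m (Real.sqrt_nonneg _)] at h5
  have h6 : volume (closedBall (0 : Fs n) 1) *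
      (ENNReal.ofReal (ρ ^ (n + 1)) * (ENNReal.ofReal (√(1 - ρ ^ 2) ^ m) * bv m)) ≤
      volume (closedBall (0 : Fs n) 1) * W n m := by
    refine le_trans (le_of_eq ?_) h5
    ring
  exact (ENNReal.mul_le_mul_iff_right hcb hct).1 h6

lemma D0_vol {c : ℝ} {n m : ℕ} {ρ : ℝ} (h0 : 0 < ρ) (h1 : ρ ≤ 1)
    (hm : (1 / 2 : ℝ) ≤ √(1 - ρ ^ 2) ^ m) :
    volume (D1 c n m) ≤ 2 * volume (D0 c n m (ρ / 4)) := by
  set v1 := volume (capG c n (e1 n)) with hv1
  have hv1t : v1 ≠ ⊤ := by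
    have h : capG c n (e1 n) ⊆ closedBall (0 : Fs n) 1 := fun y hy => by simpa using hy.1
    exact ne_top_of_le_ne_top (by rw [ball_vol]; exact ENNReal.ofReal_ne_top) (measure_mono h)
  have hbt : bv m ≠ ⊤ := (isCompact_closedBall _ _).measure_lt_top.ne
  have hsub : D1 c n m ⊆ D0 c n m (ρ / 4) ∪
      (cone c n ∩ closedBall (0 : Fs n) (ρ / 4)) ×ˢ (closedBall (0 : V m) 1) := by
    rintro ⟨y, z⟩ hp
    by_cases h : ρ / 4 ≤ ‖y‖
    · exact Or.inl ⟨hp, h⟩
    · push Not at h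
      right
      have h3 : ‖y‖ ^ 2 + ‖z‖ ^ 2 ≤ 1 := hp.1
      refine ⟨⟨hp.2, by simpa using h.le⟩, ?_⟩
      simp only [mem_closedBall, dist_zero_right]
      have := sq_nonneg ‖y‖
      nlinarith [norm_nonneg z]
  have hW := W_low n m h0.le h1
  have h2 : volume ((cone c n ∩ closedBall (0 : Fs n) (ρ / 4)) ×ˢ (closedBall (0 : V m) 1)) ≤
      ENNReal.ofReal (1 / 2) * volume (D1 c n m) := by
    rw [Measure.volume_eq_prod, Measure.prod_prod, cone_ball c n (by positivity),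
      ← Measure.volume_eq_prod, D1_vol]
    have h3 : ENNReal.ofReal ((ρ / 4) ^ (n + 1)) ≤
        ENNReal.ofReal (1 / 2) * (ENNReal.ofReal (ρ ^ (n + 1)) *
          ENNReal.ofReal (√(1 - ρ ^ 2) ^ m)) := by
      rw [← ENNReal.ofReal_mul (by positivity), ← ENNReal.ofReal_mul (by norm_num)]
      refine ENNReal.ofReal_le_ofReal ?_
      rw [div_pow]
      have h4 : (4 : ℝ) ≤ 4 ^ (n + 1) := by
        have := one_le_pow₀ (M₀ := ℝ) (a := 4) (n := n) (by norm_num)
        rw [pow_succ]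
        linarith
      have h5 : ρ ^ (n + 1) / 4 ^ (n + 1) ≤ ρ ^ (n + 1) / 4 :=
        div_le_div_of_nonneg_left (by positivity) (by norm_num) h4
      have h6 : ρ ^ (n + 1) * (1 / 2) ≤ ρ ^ (n + 1) * √(1 - ρ ^ 2) ^ m :=
        mul_le_mul_of_nonneg_left hm (by positivity)
      linarith
    calc ENNReal.ofReal ((ρ / 4) ^ (n + 1)) * v1 * bv m
        ≤ ENNReal.ofReal (1 / 2) * (ENNReal.ofReal (ρ ^ (n + 1)) *
          ENNReal.ofReal (√(1 - ρ ^ 2) ^ m)) * v1 * bv m := by gcongr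
      _ = ENNReal.ofReal (1 / 2) * (v1 * (ENNReal.ofReal (ρ ^ (n + 1)) *
          (ENNReal.ofReal (√(1 - ρ ^ 2) ^ m) * bv m))) := by ring
      _ ≤ ENNReal.ofReal (1 / 2) * (v1 * W n m) := by gcongr
  have h3 := (measure_mono (μ := volume) hsub).trans (measure_union_le _ _)
  have hfin : volume (D1 c n m) ≠ ⊤ := by
    have : D1 c n m ⊆ (closedBall (0 : Fs n) 1) ×ˢ (closedBall (0 : V m) 1) := by
      rintro ⟨y, z⟩ hp
      have h4 : ‖y‖ ^ 2 + ‖z‖ ^ 2 ≤ 1 := hp.1
      have := sq_nonneg ‖y‖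
      have := sq_nonneg ‖z‖
      refine ⟨?_, ?_⟩
      · simp only [mem_closedBall, dist_zero_right]
        nlinarith [norm_nonneg y]
      · simp only [mem_closedBall, dist_zero_right]
        nlinarith [norm_nonneg z]
    exact ne_top_of_le_ne_top
      ((isCompact_closedBall _ _).prod (isCompact_closedBall _ _)).measure_lt_top.ne
      (measure_mono this)
  have h4 : volume (D1 c n m) = ENNReal.ofReal (1 / 2) * volume (D1 c n m) +
      ENNReal.ofReal (1 / 2) * volume (D1 c n m) := by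
    rw [← add_mul, ← ENNReal.ofReal_add (by norm_num) (by norm_num)]
    norm_num
  have hhalf : ENNReal.ofReal (1 / 2) * volume (D1 c n m) ≠ ⊤ :=
    ENNReal.mul_ne_top ENNReal.ofReal_ne_top hfin
  have h5 : ENNReal.ofReal (1 / 2) * volume (D1 c n m) ≤ volume (D0 c n m (ρ / 4)) := by
    have h6 := h3.trans (add_le_add_right h2 _)
    rw [h4, add_comm (volume (D0 c n m (ρ / 4)))] at h6
    have h7 : ENNReal.ofReal (1 / 2) * volume (D1 c n m) +
      ENNReal.ofReal (1 / 2) * volume (D1 c n m) ≤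
      ENNReal.ofReal (1 / 2) * volume (D1 c n m) + volume (D0 c n m (ρ / 4)) := by
      rw [h4] at h3
      refine h3.trans ?_
      rw [add_comm]
      gcongr
    exact (ENNReal.add_le_add_iff_left hhalf).1 h7
  calc volume (D1 c n m) = 2 * (ENNReal.ofReal (1 / 2) * volume (D1 c n m)) := by
        rw [two_mul]; exact h4
    _ ≤ _ := by gcongr

/-- **The share of the ball.** -/
theorem share_D0 {c s : ℝ} (hc0 : 0 < c) (hc1 : c < 1) (hs : 0 < s) (hcs : c ^ 2 + s ^ 2 = 1)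
    {n m : ℕ} (hn : 1 ≤ n) {ρ : ℝ} (h0 : 0 < ρ) (h1 : ρ ≤ 1)
    (hm : (1 / 2 : ℝ) ≤ √(1 - ρ ^ 2) ^ m) :
    ENNReal.ofReal (shareG s n / 2) * volume (BB n m) ≤ volume (D0 c n m (ρ / 4)) := by
  have h2 := D0_vol (c := c) (n := n) h0 h1 hm
  have h3 : ENNReal.ofReal (shareG s n) * volume (BB n m) ≤ volume (D1 c n m) := by
    rw [BB_vol, D1_vol, ← mul_assoc]
    gcongr
    rw [ball_vol, ← ENNReal.ofReal_mul (shareG_pos hs).le]
    exact (ENNReal.ofReal_le_ofReal (shareG_le hs)).trans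
      (capG_vol hc0 hc1 hs hcs hn (norm_e1 n))
  have h4 := h3.trans h2
  have h5 : ENNReal.ofReal (shareG s n) = 2 * ENNReal.ofReal (shareG s n / 2) := by
    rw [show (2 : ℝ≥0∞) = ENNReal.ofReal 2 by simp, ← ENNReal.ofReal_mul (by norm_num)]
    congr 1
    ring
  rw [h5, mul_assoc] at h4
  exact (ENNReal.mul_le_mul_iff_right (by norm_num) (by norm_num)).1 h4

end Pool.Agent.K3h76.NC
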