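import Pool.Agent.K3h76.NC.Cover

/-!
# MP_eba1ef_gt: normal cones of small dimension in circular cones

Let `K` be a convex body in `ℝ^d`, symmetric or not, such that for each extreme point `x` (up to
finitely many exceptions) the unit outer normals at `x` lie in a subspace of dimension at most `k`
and make with some vector `c` an angle with cosine at least `b`, `0 < b < 1` (`NarrowAt`; `c` and the
subspace depend on `x`).  For example, this holds with `b = √a` if the normal cone has dimension at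
most `k` and any two unit normals at `x` have inner product at least `a` (`PairsAt`).

* `K` is covered by
  `1 + 4 (2 π k)^(1/2) d k log (1 + 1056 k³ d / b³) b^(-(k - 1))` translates of its interior.
* If `0 < θ ≤ 1` and `b > 2^(-1/θ)`, then `K` is covered by fewer than `2^d` translates of its
  interior, if `k ≤ θ d` and `d ≥ d₀(θ, b)`.  So half-angles less than 60 degrees are allowed for
  all normal cones, less than 75.5 degrees (`b > 1/4`) for normal cones of dimension at most `d / 2`,
  less than 82.8 degrees (`b > 1/8`) for normal cones of dimension at most `d / 3`; in terms of the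
  angles between two normals at the same point: less than 75.5, 86.4 and 89.1 degrees.
* The class is closed under adding compact convex sets.

Proof.  A direction `-v` illuminates `x` if the projection of `v` to the subspace `L` spanned by the
normals at `x` lies in the open circular cone around `c` with the sine `b` of the half-angle.  The
part of the unit ball of `ℝ^d` over such a cone has the same share of the volume as the part of the
`k`-dimensional ball in the cone, at least `b^(k - 1) / (2 π k)^(1/2)`.  Orthonormal families of `k`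
vectors are approximated by a net of size `exp (O (d k log (d / b)))`; the part of the ball where the
projection to `L` is too short for this approximation is at most half of the share, since its volume
is small in the slices.  So a random set of directions is good for all pairs `(L, c)`
simultaneously, and hence for all bodies of the class.
-/

set_option autoImplicit false

open scoped RealInnerProductSpace Pointwise

namespace Pool.Agent.K3h76.NC.NarrowSmall

open Module

/-- Euclidean space. -/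
abbrev E (d : ℕ) : Type := EuclideanSpace ℝ (Fin d)

/-- `K` is a convex body. -/
def IsBody {d : ℕ} (K : Set (E d)) : Prop := Convex ℝ K ∧ IsCompact K ∧ (interior K).Nonempty

/-- The unit outer normals of `K` at `x`. -/
def UnitNormals {d : ℕ} (K : Set (E d)) (x : E d) : Set (E d) :=
  {u | ‖u‖ = 1 ∧ ∀ y ∈ K, ⟪u, y⟫ ≤ ⟪u, x⟫}

/-- The unit outer normals of `K` at `x` lie in a subspace of dimension at most `k` and in a
circular cone with cosine `b` of the half-angle. -/
def NarrowAt {d : ℕ} (k : ℕ) (b : ℝ) (K : Set (E d)) (x : E d) : Prop :=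
  ∃ (L : Submodule ℝ (E d)) (c : E d), finrank ℝ L ≤ k ∧ ‖c‖ = 1 ∧
    ∀ u ∈ UnitNormals K x, u ∈ L ∧ b ≤ ⟪c, u⟫

/-- The unit outer normals of `K` at `x` lie in a subspace of dimension at most `k`, and any two of
them have inner product at least `a`. -/
def PairsAt {d : ℕ} (k : ℕ) (a : ℝ) (K : Set (E d)) (x : E d) : Prop :=
  ∃ L : Submodule ℝ (E d), finrank ℝ L ≤ k ∧ (∀ u ∈ UnitNormals K x, u ∈ L) ∧
    ∀ u ∈ UnitNormals K x, ∀ v ∈ UnitNormals K x, a ≤ ⟪u, v⟫

theorem narrow_small :
    -- (1) the bound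
    (∀ (d k : ℕ) (b : ℝ) (K : Set (E d)) (F : Finset (E d)), 2 ≤ k → k ≤ d → 0 < b → b < 1 →
      IsBody K → (∀ x ∈ K.extremePoints ℝ, x ∉ F → NarrowAt k b K x) →
      ∃ T : Finset (E d), (T.card : ℝ) ≤ F.card + (1 + 4 * √(2 * Real.pi * k) * (d * k) *
          Real.log (1 + 1056 * (k : ℝ) ^ 3 * d / b ^ 3) * (1 / b) ^ (k - 1)) ∧
        K ⊆ ⋃ t ∈ T, (fun x => t + x) '' interior K) ∧
    -- (2) large dimensions
    (∀ θ b : ℝ, 0 < θ → θ ≤ 1 → 0 < b → b < 1 → 1 < 2 * b ^ θ → ∃ d₀ : ℕ, ∀ (d k : ℕ)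
      (K : Set (E d)) (F : Finset (E d)), d₀ ≤ d → (k : ℝ) ≤ θ * d → IsBody K →
      F.card ≤ 2 ^ (d - 1) → (∀ x ∈ K.extremePoints ℝ, x ∉ F → NarrowAt k b K x) →
      ∃ T : Finset (E d), T.card < 2 ^ d ∧ K ⊆ ⋃ t ∈ T, (fun x => t + x) '' interior K) ∧
    -- (3) a sufficient condition
    (∀ (d k : ℕ) (a : ℝ) (K : Set (E d)) (x : E d), 1 ≤ d → 0 ≤ a → a ≤ 1 → PairsAt k a K x →
      NarrowAt k (√a) K x) ∧
    -- (4) the class is closed under adding compact convex sets
    (∀ (d k : ℕ) (b : ℝ) (A B : Set (E d)), IsBody A →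
      (∀ x ∈ A.extremePoints ℝ, NarrowAt k b A x) → Convex ℝ B → IsCompact B → B.Nonempty →
      IsBody (A + B) ∧ ∀ x ∈ A + B, NarrowAt k b (A + B) x) := by
  refine ⟨?_, ?_, ?_, ?_⟩
  · intro d k b K F hk hkd hb0 hb1 hK hF
    set B : ℝ := 4 * √(2 * Real.pi * k) * (d * k) *
          Real.log (1 + 1056 * (k : ℝ) ^ 3 * d / b ^ 3) * (1 / b) ^ (k - 1) with hB
    have hB0 : 0 ≤ B := by
      have : 0 ≤ Real.log (1 + 1056 * (k : ℝ) ^ 3 * d / b ^ 3) := by
        refine Real.log_nonneg ?_
        have : 0 ≤ 1056 * (k : ℝ) ^ 3 * d / b ^ 3 := by positivity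
        linarith
      positivity
    obtain ⟨T, hT, hcov⟩ := K3h76.NC.cover_narrow (E := E d) hk hkd finrank_euclideanSpace_fin
      hb0 hb1 (N := ⌊B⌋₊ + 1) (by push_cast; exact Nat.lt_floor_add_one B) hK.1 hK.2.1 hK.2.2 F
      (fun x hx hxF => by
        obtain ⟨L, c, h1, h2, h3⟩ := hF x hx hxF
        exact ⟨L, c, h1, h2, fun u hu hux => h3 u ⟨hu, hux⟩⟩)
    refine ⟨T, ?_, hcov⟩
    have h6 : (T.card : ℝ) ≤ ((F.card + (⌊B⌋₊ + 1) : ℕ) : ℝ) := by exact_mod_cast hT
    have h7 := Nat.floor_le hB0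
    push_cast at h6
    linarith
  · intro θ b hθ0 hθ1 hb0 hb1 hbθ
    obtain ⟨d₀, hd2, hd₀⟩ := K3h76.NC.asymp hθ0 hθ1 hb0 hb1 hbθ
    refine ⟨d₀, fun d k K F hd hk hK hFc hF => ?_⟩
    obtain ⟨hθd, hbd⟩ := hd₀ d hd
    set k' := max k 2 with hk'
    have hk2 : 2 ≤ k' := le_max_right _ _
    have hk'd : (k' : ℝ) ≤ θ * d := by
      rw [hk']
      push_cast
      exact max_le hk hθd
    have hkd : k' ≤ d := by
      have : (k' : ℝ) ≤ d := by
        have hd0 : (0 : ℝ) ≤ d := Nat.cast_nonneg d
        nlinarith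
      exact_mod_cast this
    set B : ℝ := 4 * √(2 * Real.pi * k') * (d * k') *
          Real.log (1 + 1056 * (k' : ℝ) ^ 3 * d / b ^ 3) * (1 / b) ^ (k' - 1) with hB
    have hB1 := hbd k' hk2 hk'd
    rw [← hB] at hB1
    have h2 : B < ((2 ^ (d - 1) - 1 : ℕ) : ℝ) := by
      have : 1 ≤ 2 ^ (d - 1) := Nat.one_le_two_pow
      rw [Nat.cast_sub this]
      push_cast
      exact hB1
    obtain ⟨T, hT, hcov⟩ := K3h76.NC.cover_narrow (E := E d) hk2 hkd finrank_euclideanSpace_fin
      hb0 hb1 (N := 2 ^ (d - 1) - 1) h2 hK.1 hK.2.1 hK.2.2 F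
      (fun x hx hxF => by
        obtain ⟨L, c, h1, h2, h3⟩ := hF x hx hxF
        exact ⟨L, c, h1.trans (le_max_left _ _), h2, fun u hu hux => h3 u ⟨hu, hux⟩⟩)
    refine ⟨T, ?_, hcov⟩
    have h3 : 2 ^ d = 2 ^ (d - 1) * 2 := by
      rw [← pow_succ]
      congr 1
      omega
    have h4 : 1 ≤ 2 ^ (d - 1) := Nat.one_le_two_pow
    omega
  · intro d k a K x hd ha0 ha1 ⟨L, hL, hN, hp⟩
    obtain ⟨M, c, h1, h2, h3⟩ := K3h76.NC.narrowAt_of_pairs (E := E d)
      finrank_euclideanSpace_fin hd ha0 ha1 (K := K) (x := x) L hL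
      (fun u hu hux => hN u ⟨hu, hux⟩)
      (fun u v hu hv hux hvx => hp u ⟨hu, hux⟩ v ⟨hv, hvx⟩)
    exact ⟨M, c, h1, h2, fun u hu => h3 u hu.1 hu.2⟩
  · intro d k b A B hA hAx hB hBc hBn
    refine ⟨⟨hA.1.add hB, hA.2.1.add hBc, ?_⟩, fun x hx => ?_⟩
    · have h2 : interior A + B ⊆ interior (A + B) :=
        interior_maximal (Set.add_subset_add_right interior_subset) isOpen_interior.add_right
      exact (hA.2.2.add hBn).mono h2
    · obtain ⟨M, c, h1, h2, h3⟩ := K3h76.NC.narrowAt_add (W := A) (L := B) (k := k) (b := b)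
        hA.2.1 (fun x hx => by
          obtain ⟨L, c, h1, h2, h3⟩ := hAx x hx
          exact ⟨L, c, h1, h2, fun u hu hux => h3 u ⟨hu, hux⟩⟩) hx
      exact ⟨M, c, h1, h2, fun u hu => h3 u hu.1 hu.2⟩

end Pool.Agent.K3h76.NC.NarrowSmall
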